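import Pool.Agent.W533.PP.Stm

/-!
Project PP (helper533), part PACT.
-/

set_option autoImplicit false

namespace Pool.Agent.W357.PP

open Pool.Agent.W533.PP

theorem pact : PACT := by
  intro n τ v s
  have hv : ∀ x : Fin (n + 1), (ins v τ x.castSucc).val =
      if (τ x).val < v.val then (τ x).val else (τ x).val + 1 := by
    intro x
    rw [ins_castSucc]
    unfold Fin.succAbove
    by_cases h : (τ x).val < v.val
    · rw [if_pos (Fin.lt_def.2 (by simpa using h)), if_pos h]
      simp
    · rw [if_neg (fun h' => h (by simpa using Fin.lt_def.1 h')), if_neg h]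
      simp
  constructor
  · intro h
    constructor
    · intro i j k hij hjk hc
      have h1 := h i.castSucc j.castSucc k.castSucc (Fin.castSucc_lt_castSucc_iff.2 hij)
        (by simpa using hjk)
      rw [hv, hv, hv] at h1
      apply h1
      split_ifs at hc ⊢ <;> omega
    · rintro ⟨h1, h2⟩
      have hlt := v.isLt
      have hL : (τ (Fin.last n)).val + 1 < n + 1 := by omega
      obtain ⟨i0, hi0⟩ := τ.surjective ⟨(τ (Fin.last n)).val + 1, hL⟩
      have hi1 : (τ i0).val = (τ (Fin.last n)).val + 1 := by rw [hi0]
      have hne : i0 ≠ Fin.last n := by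
        rintro rfl
        omega
      have hlt' : i0 < Fin.last n := Fin.lt_last_iff_ne_last.2 hne
      have h3 := h i0.castSucc (Fin.last n).castSucc (Fin.last (n + 1))
        (Fin.castSucc_lt_castSucc_iff.2 hlt') (by simp)
      rw [hv, hv, ins_last, hi1] at h3
      apply h3
      split_ifs <;> omega
  · rintro ⟨h1, h2⟩ i j k hij hjk hc
    have hj : j ≠ Fin.last (n + 1) := by
      rintro rfl
      have := k.isLt
      rw [hjk] at this
      simp at this
    have hi : i ≠ Fin.last (n + 1) := by
      rintro rfl
      exact absurd hij (not_lt.2 (Fin.le_last j))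
    obtain ⟨i, rfl⟩ := Fin.exists_castSucc_eq.2 hi
    obtain ⟨j, rfl⟩ := Fin.exists_castSucc_eq.2 hj
    have hij' : i < j := Fin.castSucc_lt_castSucc_iff.1 hij
    by_cases hk : k = Fin.last (n + 1)
    · subst hk
      have hjn : j = Fin.last n := by
        apply Fin.ext
        simp at hjk ⊢
        omega
      subst hjn
      rw [hv, hv, ins_last] at hc
      apply h2
      have hne : (τ i).val ≠ (τ (Fin.last n)).val := by
        intro h
        have := τ.injective (Fin.ext h)
        rw [this] at hij'
        exact lt_irrefl _ hij'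
      split_ifs at hc <;> omega
    · obtain ⟨k, rfl⟩ := Fin.exists_castSucc_eq.2 hk
      rw [hv, hv, hv] at hc
      refine h1 i j k hij' (by simpa using hjk) ?_
      split_ifs at hc ⊢ <;> omega

end Pool.Agent.W357.PP
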